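import Pool.Agent.Helper43.FV.Spec

set_option autoImplicit false

/-! Finite support of functions on the prime divisors of a model. -/

namespace Pool.Agent.Helper43.FV

open Pool.Agent.Helper43.RS

section

variable {K : Type} [Field K] [Algebra ℂ K]

lemma D1_one {v : K → ℤ} (hv : IsPlace v) : v 1 = 0 := by
  have := hv.const 1
  rwa [map_one] at this

lemma D1_inv {v : K → ℤ} (hv : IsPlace v) {f : K} (hf : f ≠ 0) : v f⁻¹ = -v f := by
  have h := hv.mul f f⁻¹ hf (inv_ne_zero hf)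
  rw [mul_inv_cancel₀ hf, D1_one hv] at h
  omega

lemma D1_pow {v : K → ℤ} (hv : IsPlace v) {f : K} (hf : f ≠ 0) (n : ℕ) : v (f ^ n) = n * v f := by
  induction n with
  | zero => simp [D1_one hv]
  | succ n ih =>
    rw [pow_succ, hv.mul _ _ (pow_ne_zero n hf) hf, ih]
    push_cast
    ring

lemma D1_zpow {v : K → ℤ} (hv : IsPlace v) {f : K} (hf : f ≠ 0) (n : ℤ) :
    v (f ^ n) = n * v f := by
  cases n with
  | ofNat n =>
    have := D1_pow hv hf n
    simpa using this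
  | negSucc n =>
    rw [zpow_negSucc, D1_inv hv (pow_ne_zero _ hf), D1_pow hv hf]
    push_cast [Int.negSucc_eq]
    ring

/-- `v` is a discrete valuation whose ring is a localization of a local ring of `R` -/
structure D1_At (R : Subalgebra ℂ K) (v : K → ℤ) : Prop where
  pl : IsPlace v
  pos : ∀ r : R, 0 ≤ v r
  frac : ∀ f : K, 0 ≤ v f → ∃ r s : R, (s : K) ≠ 0 ∧ v s = 0 ∧ f * s = r

lemma D1_at {R : Subalgebra ℂ K} {φ : R →ₐ[ℂ] ℂ} {v : K → ℤ} (hv : IsPlace v)
    (h1 : ∀ p ∈ locAt R φ, 0 ≤ v p)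
    (h2 : ∀ f : K, 0 ≤ v f → ∃ p ∈ locAt R φ, ∃ q ∈ locAt R φ, q ≠ 0 ∧ v q = 0 ∧ f * q = p) :
    D1_At R v := by
  have hne : ∀ s : R, φ s ≠ 0 → (s : K) ≠ 0 := by
    intro s hs h
    apply hs
    have : s = 0 := Subtype.ext h
    rw [this, map_zero]
  have hu : ∀ s : R, φ s ≠ 0 → v s = 0 := by
    intro s hs
    have h3 : (s : K) ∈ locAt R φ := ⟨s, 1, by simp, by simp⟩
    have h4 : ((s : K))⁻¹ ∈ locAt R φ := by
      refine ⟨1, s, hs, ?_⟩
      rw [inv_mul_cancel₀ (hne s hs)]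
      simp
    have h5 := h1 _ h3
    have h6 := h1 _ h4
    rw [D1_inv hv (hne s hs)] at h6
    omega
  refine ⟨hv, fun r => h1 _ ⟨r, 1, by simp, by simp⟩, ?_⟩
  intro f hf
  obtain ⟨p, ⟨p1, p2, hp2, hp⟩, q, ⟨q1, q2, hq2, hq⟩, hq0, hvq, hfq⟩ := h2 f hf
  refine ⟨p1 * q2, q1 * p2, ?_, ?_, ?_⟩
  · push_cast
    rw [← hq]
    exact mul_ne_zero (mul_ne_zero hq0 (hne _ hq2)) (hne _ hp2)
  · push_cast
    rw [← hq, hv.mul _ _ (mul_ne_zero hq0 (hne _ hq2)) (hne _ hp2),
      hv.mul _ _ hq0 (hne _ hq2), hvq, hu _ hq2, hu _ hp2]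
    norm_num
  · push_cast
    rw [← hp, ← hq, ← hfq]
    ring

/-- the center of `v` on `R` -/
def D1_P {R : Subalgebra ℂ K} {v : K → ℤ} (h : D1_At R v) : Ideal R where
  carrier := {r | r = 0 ∨ 0 < v r}
  zero_mem' := Or.inl rfl
  add_mem' := by
    rintro a b ha hb
    by_cases ha0 : a = 0
    · rw [ha0, zero_add]; exact hb
    by_cases hb0 : b = 0
    · rw [hb0, add_zero]; exact ha
    by_cases hab : a + b = 0
    · exact Or.inl hab
    right
    have ha' := ha.resolve_left ha0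
    have hb' := hb.resolve_left hb0
    have h1 := h.pl.add (a : K) (b : K) (fun h => ha0 (Subtype.ext h))
      (fun h => hb0 (Subtype.ext h)) (fun h => hab (Subtype.ext h))
    push_cast
    exact lt_of_lt_of_le (lt_min ha' hb') h1
  smul_mem' := by
    rintro c a ha
    by_cases ha0 : a = 0
    · left; rw [ha0, smul_zero]
    by_cases hc0 : c = 0
    · left; rw [hc0, zero_smul]
    right
    have ha' := ha.resolve_left ha0
    have h1 := h.pl.mul (c : K) (a : K) (fun h => hc0 (Subtype.ext h))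
      (fun h => ha0 (Subtype.ext h))
    have h2 := h.pos c
    show 0 < v ((c * a : R) : K)
    push_cast
    omega

lemma D1_mem {R : Subalgebra ℂ K} {v : K → ℤ} (h : D1_At R v) {r : R} :
    r ∈ D1_P h ↔ r = 0 ∨ 0 < v r := Iff.rfl

lemma D1_prime {R : Subalgebra ℂ K} {v : K → ℤ} (h : D1_At R v) : (D1_P h).IsPrime := by
  constructor
  · rw [Ideal.ne_top_iff_one]
    intro h1
    rcases h1 with h1 | h1
    · exact one_ne_zero h1
    · have := D1_one h.pl
      simp only [OneMemClass.coe_one] at h1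
      omega
  · intro a b hab
    by_cases ha0 : a = 0
    · left; left; exact ha0
    by_cases hb0 : b = 0
    · right; left; exact hb0
    have h2 := hab.resolve_left (mul_ne_zero ha0 hb0)
    have h1 := h.pl.mul (a : K) (b : K) (fun h => ha0 (Subtype.ext h))
      (fun h => hb0 (Subtype.ext h))
    push_cast at h2
    have h3 := h.pos a
    have h4 := h.pos b
    by_cases h5 : 0 < v a
    · left; right; exact h5
    · right; right; omega

lemma D1_iff {R : Subalgebra ℂ K} {v : K → ℤ} (h : D1_At R v) {f : K} (hf : f ≠ 0) :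
    0 ≤ v f ↔ ∃ r s : R, s ∉ D1_P h ∧ f * s = r := by
  constructor
  · intro h1
    obtain ⟨r, s, hs0, hs, hfs⟩ := h.frac f h1
    refine ⟨r, s, ?_, hfs⟩
    rintro (h2 | h2)
    · exact hs0 (by rw [h2]; rfl)
    · omega
  · rintro ⟨r, s, hs, hfs⟩
    rw [D1_mem, not_or] at hs
    have hs0 : (s : K) ≠ 0 := fun h => hs.1 (Subtype.ext h)
    have h1 := h.pl.mul f s hf hs0
    rw [hfs] at h1
    have h2 := h.pos r
    have h3 := h.pos s
    omega

lemma D1_inj {R : Subalgebra ℂ K} {v v' : K → ℤ} (h : D1_At R v) (h' : D1_At R v')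
    (hP : D1_P h = D1_P h') : v = v' := by
  have key : ∀ f : K, f ≠ 0 → (0 ≤ v f ↔ 0 ≤ v' f) := by
    intro f hf
    rw [D1_iff h hf, D1_iff h' hf, hP]
  obtain ⟨t, ht0, ht⟩ := h.pl.one
  obtain ⟨t', ht0', ht'⟩ := h'.pl.one
  have key2 : ∀ f : K, f ≠ 0 → v' f = v f * v' t := by
    intro f hf
    have h1 : f * t ^ (-v f) ≠ 0 := mul_ne_zero hf (zpow_ne_zero _ ht0)
    have h2 : v (f * t ^ (-v f)) = 0 := by
      rw [h.pl.mul _ _ hf (zpow_ne_zero _ ht0), D1_zpow h.pl ht0, ht]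
      ring
    have h3 : v' (f * t ^ (-v f)) = v' f - v f * v' t := by
      rw [h'.pl.mul _ _ hf (zpow_ne_zero _ ht0), D1_zpow h'.pl ht0]
      ring
    have h4 : 0 ≤ v' (f * t ^ (-v f)) := (key _ h1).1 (by rw [h2])
    have h5 : 0 ≤ v' (f * t ^ (-v f))⁻¹ :=
      (key _ (inv_ne_zero h1)).1 (by rw [D1_inv h.pl h1, h2]; norm_num)
    rw [D1_inv h'.pl h1] at h5
    omega
  have h6 := key2 t' ht0'
  rw [ht'] at h6
  have h7 : 0 ≤ v' t := (key t ht0).1 (by rw [ht]; norm_num)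
  have h8 : v' t = 1 := Int.eq_one_of_mul_eq_one_left h7 h6.symm
  funext f
  by_cases hf : f = 0
  · rw [hf, h.pl.zero, h'.pl.zero]
  · rw [key2 f hf, h8, mul_one]

lemma D1_min {R : Subalgebra ℂ K} {v : K → ℤ} (h : D1_At R v) {z : R} (hz0 : z ≠ 0)
    (hz : z ∈ D1_P h) : D1_P h ∈ (Ideal.span {z}).minimalPrimes := by
  refine ⟨⟨D1_prime h, ?_⟩, ?_⟩
  · rw [Ideal.span_le, Set.singleton_subset_iff]; exact hz
  · rintro Q ⟨hQp, hQ⟩ hQP r hr
    rw [Ideal.span_le, Set.singleton_subset_iff] at hQ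
    by_cases hr0 : r = 0
    · rw [hr0]; exact Q.zero_mem
    have hr' := hr.resolve_left hr0
    have hz' := hz.resolve_left hz0
    have hr0' : (r : K) ≠ 0 := fun h => hr0 (Subtype.ext h)
    have hz0' : (z : K) ≠ 0 := fun h => hz0 (Subtype.ext h)
    obtain ⟨n, hn⟩ := Int.eq_ofNat_of_zero_le hz'.le
    obtain ⟨m, hm⟩ := Int.eq_ofNat_of_zero_le hr'.le
    have h1 : (r : K) ^ n * ((z : K) ^ m)⁻¹ ≠ 0 :=
      mul_ne_zero (pow_ne_zero _ hr0') (inv_ne_zero (pow_ne_zero _ hz0'))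
    have h2 : 0 ≤ v ((r : K) ^ n * ((z : K) ^ m)⁻¹) := by
      rw [h.pl.mul _ _ (pow_ne_zero _ hr0') (inv_ne_zero (pow_ne_zero _ hz0')),
        D1_inv h.pl (pow_ne_zero _ hz0'), D1_pow h.pl hr0', D1_pow h.pl hz0', hn, hm]
      have : (n : ℤ) * m + -(m * n) = 0 := by ring
      rw [this]
    obtain ⟨a, s, hs, has⟩ := (D1_iff h h1).1 h2
    have h3 : r ^ n * s = a * z ^ m := by
      apply Subtype.ext
      push_cast
      rw [← has]
      field_simp
    have hm0 : m ≠ 0 := by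
      rintro rfl
      rw [hm] at hr'
      simp at hr'
    have h4 : r ^ n * s ∈ Q := by
      rw [h3]
      exact Q.mul_mem_left _ (Q.pow_mem_of_mem hQ _ (Nat.pos_of_ne_zero hm0))
    rcases hQp.mem_or_mem h4 with h5 | h5
    · exact hQp.mem_of_pow_mem _ h5
    · exact absurd (hQP h5) hs

theorem st_D1 : ST_D1 := by
  intro K _ _ X hX f hf
  obtain ⟨n, R, -, hR, hcov⟩ := hX.charts
  have hfin : ∀ i : Fin n, {v : K → ℤ | D1_At (R i) v ∧ v f ≠ 0}.Finite := by
    intro i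
    obtain ⟨p, q, hq0, hfq⟩ := (hR i).frac f
    haveI : Algebra.FiniteType ℂ (R i) := (Subalgebra.fg_iff_finiteType _).1 (hR i).fg
    haveI : IsNoetherianRing (R i) := Algebra.FiniteType.isNoetherianRing ℂ (R i)
    have hp0 : (p : K) ≠ 0 := by rw [← hfq]; exact mul_ne_zero hf hq0
    have hz0 : p * q ≠ 0 := by
      intro h
      have : (p : K) * q = 0 := by exact_mod_cast congrArg Subtype.val h
      exact mul_ne_zero hp0 hq0 this
    have hfm := Ideal.finite_minimalPrimes_of_isNoetherianRing (R i) (Ideal.span {p * q})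
    classical
    refine Set.Finite.of_injOn (f := fun v => if h : D1_At (R i) v then D1_P h else ⊥)
      (t := (Ideal.span {p * q}).minimalPrimes) ?_ ?_ hfm
    · rintro v ⟨hv, hvf⟩
      show (if h : D1_At (R i) v then D1_P h else ⊥) ∈ _
      rw [dif_pos hv]
      refine D1_min hv hz0 (Or.inr ?_)
      have h1 := hv.pl.mul f q hf hq0
      rw [hfq] at h1
      have h2 := hv.pos p
      have h3 := hv.pos q
      push_cast
      rw [hv.pl.mul _ _ hp0 hq0]
      omega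
    · rintro v ⟨hv, -⟩ v' ⟨hv', -⟩ h
      simp only [dif_pos hv, dif_pos hv'] at h
      exact D1_inj hv hv' h
  refine (Set.finite_iUnion hfin).subset ?_
  rintro v ⟨⟨hv, O, hO, h1, h2⟩, hvf⟩
  obtain ⟨i, φ, rfl⟩ := (hcov O).1 hO
  exact Set.mem_iUnion.2 ⟨i, D1_at hv h1 h2, hvf⟩

end

end Pool.Agent.Helper43.FV
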